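import Pool.Agent.Y560.TF.GeS

set_option autoImplicit false
set_option linter.unusedSectionVars false

/-!
# Project TF: classes over a point of a class (job TF-CL)
-/

namespace Pool.Agent.Y899.TF.ClJob

open Pool.Agent.Y560.TF.Ge

section

variable {Γ X : Type} [Group Γ] [PartialOrder X] [MulAction Γ X] [Tr Γ X]

theorem slcmp {u p q : X} (h : SL Γ u p q) (hp : DD Γ u p) : p ≤ q ∨ q ≤ p := by
  obtain ⟨γ, hγ⟩ := hp
  exact cmp Γ hγ ((h.b γ).1 hγ)

theorem quot_smul (a b : Γ) (s : X) : (b * a⁻¹) • (a • s) = b • s := by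
  rw [← mul_smul, inv_mul_cancel_right]

/-- translates of `s` with the same label have the same position to `w` if `IN` is false -/
theorem not_in {u s w : X} (h : ¬ IN Γ u s w) (a b : Γ) (hab : SL Γ u (a • s) (b • s))
    (ha : a • s ≤ w) : b • s ≤ w := by
  by_contra hb
  exact h ⟨a, b, hab, ha, hb⟩

/-- translate the second witness so that it starts with a given translate of `s` -/
theorem in_shift {u s x : X} (h : IN Γ u s x) (a : Γ) :
    ∃ α β : Γ, SL Γ u (a • s) (β • s) ∧ a • s ≤ α • x ∧ ¬ β • s ≤ α • x := by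
  obtain ⟨a', b', h1, h2, h3⟩ := h
  refine ⟨a * a'⁻¹, a * a'⁻¹ * b', ?_, ?_, ?_⟩
  · have := h1.smul (a * a'⁻¹)
    rwa [quot_smul, ← mul_smul] at this
  · have := (sle (γ := a * a'⁻¹)).2 h2
    rwa [quot_smul] at this
  · intro h4
    rw [mul_smul, sle] at h4
    exact h3 h4

/-- the separating case of clause (iii) -/
theorem case_I {y x v w s p' q' q'' : X} (hs : DD Γ y s) (hv : IN Γ y s v) (hx : IN Γ y s x)
    (hw : ¬ IN Γ y s w) {κ' : Γ} (hκ' : κ' • p' = q') (h1 : SL Γ x p' q') (h2 : p' ≤ v)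
    (h3 : ¬ q' ≤ v) (h4 : SL Γ x p' q'') (h5 : p' ≤ w) (h6 : ¬ q'' ≤ w) : False := by
  obtain ⟨a, b, hab, ha, hb⟩ := hv
  obtain ⟨α, β, hβ, hα, hβx⟩ := in_shift hx a
  have hda : DD Γ y (a • s) := hs.smul a
  have hle : a • s ≤ β • s := by
    rcases slcmp hβ hda with h | h
    · exact h
    · exact absurd (h.trans hα) hβx
  rcases cmp Γ ha h2 with hc | hc
  · -- p ≤ p'
    have hpw : a • s ≤ w := hc.trans h5
    have hqw : b • s ≤ w := not_in hw a b hab hpw
    obtain ⟨κ, hκp⟩ : ∃ κ : Γ, κ • (a • s) = b • s := ⟨b * a⁻¹, quot_smul a b s⟩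
    obtain ⟨θ, hθp⟩ : ∃ θ : Γ, θ • (a • s) = β • s := ⟨β * a⁻¹, quot_smul a β s⟩
    have c1 : p' ≤ b • s := by
      rcases cmp Γ hqw h5 with h | h
      · exact absurd (h.trans h2) hb
      · exact h
    have c2 : b • s ≤ κ • (α • x) := by rw [← hκp]; exact sle.2 hα
    have c3 : q'' ≤ κ • (α • x) := by
      rw [← mul_smul]
      exact (h4.b _).1 (by rw [mul_smul]; exact c1.trans c2)
    -- κ q1
    have c4 : SL Γ y (a • s) ((κ * β) • s) := by
      have := hβ.smul κ
      rw [hκp, ← mul_smul] at this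
      exact hab.trans this
    have c5 : (κ * β) • s ≤ w := not_in hw a _ c4 hpw
    have c6 : b • s ≤ (κ * β) • s := by
      rw [← hκp, mul_smul]; exact sle.2 hle
    have c7 : (κ * β) • s ≤ (κ * (θ * α)) • x := by
      rw [mul_smul, ← hθp, mul_smul, mul_smul]
      exact sle.2 (sle.2 hα)
    have c8 : q'' ≤ (κ * (θ * α)) • x := (h4.b _).1 ((c1.trans c6).trans c7)
    rcases cmp Γ c7 c8 with h | h
    · have c9 : (κ * β) • s ≤ κ • (α • x) := h.trans c3
      rw [mul_smul, sle] at c9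
      exact hβx c9
    · exact h6 (h.trans c5)
  · -- p' ≤ p
    have c1 : p' ≤ α • x := hc.trans hα
    have c2 : q' ≤ α • x := (h1.b _).1 c1
    have c3 : a • s ≤ q' := by
      rcases cmp Γ c2 hα with h | h
      · exact absurd (h.trans ha) h3
      · exact h
    have hw1 : ¬ IN Γ y s (κ' • w) := fun h => hw (IN_smul.1 h)
    have d1 : q' ≤ κ' • w := by rw [← hκ']; exact sle.2 h5
    have d2 : ¬ κ' • q'' ≤ κ' • w := fun h => h6 (sle.1 h)
    have d3 : SL Γ x q' (κ' • q'') := by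
      have := h4.smul κ'
      rwa [hκ'] at this
    have d4 : a • s ≤ κ' • w := c3.trans d1
    have d5 : β • s ≤ κ' • w := not_in hw1 a β hβ d4
    have d6 : q' ≤ β • s := by
      rcases cmp Γ d5 d1 with h | h
      · exact absurd (h.trans c2) hβx
      · exact h
    obtain ⟨θ, hθp⟩ : ∃ θ : Γ, θ • (a • s) = β • s := ⟨β * a⁻¹, quot_smul a β s⟩
    have d7 : β • s ≤ (θ * α) • x := by
      rw [← hθp, mul_smul]; exact sle.2 hα
    have d8 : κ' • q'' ≤ (θ * α) • x := (d3.b _).1 (d6.trans d7)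
    have d9 : SL Γ y (a • s) ((θ * β) • s) := by
      have := hβ.smul θ
      rw [hθp, ← mul_smul] at this
      exact hβ.trans this
    have e1 : (θ * β) • s ≤ κ' • w := not_in hw1 a _ d9 d4
    have e2 : β • s ≤ (θ * β) • s := by
      conv_lhs => rw [← hθp]
      rw [mul_smul]; exact sle.2 hle
    have e3 : (θ * β) • s ≤ (θ * (θ * α)) • x := by
      rw [mul_smul, mul_smul θ (θ * α)]
      exact sle.2 d7
    have e4 : κ' • q'' ≤ (θ * (θ * α)) • x := (d3.b _).1 ((d6.trans e2).trans e3)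
    rcases cmp Γ e3 e4 with h | h
    · have e5 : (θ * β) • s ≤ (θ * α) • x := h.trans d8
      rw [mul_smul, mul_smul, sle] at e5
      exact hβx e5
    · exact d2 (h.trans e1)

end

theorem t_CL (h1 : S_EQV) (h2 : S_TYP) : S_CL := by
  intro Γ X _ _ _ _ y z x v hx hv w hw
  obtain ⟨E1, E2, E3, -, -⟩ := h1 Γ X
  -- clause (ii) with the base point moved
  have key2 : ∀ (v0 r : X), v0 ∈ OB Γ y z → r ≤ v0 → r ≤ w → ¬ DD Γ x r → w ∈ OB Γ y z := by
    intro v0 r hv0 k1 k2 k3
    have hE : OB Γ y v0 = OB Γ y z := E2 y z v0 hv0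
    by_cases hr : DD Γ y r
    · rw [← hE] at hx ⊢
      by_cases hs : ∃ s, DD Γ y s ∧ IN Γ y s v0
      · obtain ⟨s, hs, hin⟩ := hs
        have hT := (h2 Γ X y v0).1 s hs hin
        rw [hT] at hx ⊢
        obtain ⟨a, b, hab, ha, hb⟩ := hin
        obtain ⟨α, β, hβ, hα, hβx⟩ := in_shift hx a
        have hpr : a • s ≤ r := by
          rcases cmp Γ ha k1 with h | h
          · exact h
          · exact absurd ⟨α, h.trans hα⟩ k3
        by_cases hq : b • s ≤ w
        · exfalso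
          rcases cmp Γ hq k2 with h | h
          · exact hb (h.trans k1)
          · apply k3
            obtain ⟨κ, hκp⟩ : ∃ κ : Γ, κ • (a • s) = b • s := ⟨b * a⁻¹, quot_smul a b s⟩
            refine ⟨κ * α, h.trans ?_⟩
            rw [← hκp, mul_smul]
            exact (sle (γ := κ)).2 hα
        · exact ⟨a, b, hab, hpr.trans k2, hq⟩
      · exfalso
        by_cases hd : DD Γ y v0
        · rw [(h2 Γ X y v0).2.1 hd hs] at hx
          obtain ⟨γ, rfl⟩ := hx
          exact k3 ⟨γ⁻¹, by rw [inv_smul_smul]; exact k1⟩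
        · rw [(h2 Γ X y v0).2.2.1 hd hs] at hx
          obtain ⟨γ, c, g1, g2, g3⟩ := hx
          have g4 : γ • r ≤ γ • v0 := sle.2 k1
          rcases cmp Γ g4 g1 with h | h
          · apply k3
            have hdd : DD Γ x (γ • r) := ⟨1, by rw [one_smul]; exact h.trans g2⟩
            exact DD_smul.1 hdd
          · exact g3 ((hr.smul γ).le h)
    · rw [← hE]
      exact Or.inr (Or.inl ⟨1, r, by rw [one_smul]; exact k1, k2, hr⟩)
  rcases hw with ⟨γ, rfl⟩ | ⟨γ, r, k1, k2, k3⟩ | ⟨s', hs', hv', hw'⟩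
  · exact (E3 y z v γ).2 hv
  · exact key2 (γ • v) r ((E3 y z v γ).2 hv) k1 k2 k3
  · obtain ⟨a1, b1, g1, g2, g3⟩ := hv'
    obtain ⟨α, β, j1, j2, j3⟩ := in_shift hw' a1
    rw [← E3 y z w α]
    by_contra hno
    have hE : OB Γ y v = OB Γ y z := E2 y z v hv
    rw [← hE] at hx hno
    by_cases hs : ∃ s, DD Γ y s ∧ IN Γ y s v
    · obtain ⟨s, hs, hin⟩ := hs
      have hT := (h2 Γ X y v).1 s hs hin
      rw [hT] at hx hno
      exact case_I hs hin hx hno (quot_smul a1 b1 s') g1 g2 g3 j1 j2 j3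
    · by_cases hd : DD Γ y v
      · rw [(h2 Γ X y v).2.1 hd hs] at hx
        obtain ⟨γ, rfl⟩ := hx
        apply g3
        have := (g1.b γ⁻¹).1 (by rw [inv_smul_smul]; exact g2)
        rwa [inv_smul_smul] at this
      · have hx' := hx
        rw [(h2 Γ X y v).2.2.1 hd hs] at hx'
        obtain ⟨γ, c, c1, c2, c3⟩ := hx'
        have d1 : γ⁻¹ • c ≤ v := by rw [sle_left, inv_inv]; exact c1
        have d2 : γ⁻¹ • c ≤ γ⁻¹ • x := sle.2 c2
        have d3 : ¬ DD Γ y (γ⁻¹ • c) := fun h => c3 (DD_smul.1 h)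
        rcases cmp Γ d1 g2 with h | h
        · exact hno (Or.inr (Or.inl ⟨1, γ⁻¹ • c, by rw [one_smul]; exact d1, h.trans j2, d3⟩))
        · have d4 : b1 • s' ≤ γ⁻¹ • x := (g1.b _).1 (h.trans d2)
          rcases cmp Γ d2 d4 with h' | h'
          · apply hno
            refine Or.inr (Or.inl ⟨(b1 * a1⁻¹)⁻¹, (b1 * a1⁻¹)⁻¹ • (γ⁻¹ • c), sle.2 d1, ?_,
              fun h => d3 (DD_smul.1 h)⟩)
            refine le_trans ?_ j2
            rw [sle_left, inv_inv, quot_smul]
            exact h'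
          · exact g3 (h'.trans d1)

end Pool.Agent.Y899.TF.ClJob
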