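import Pool.Agent.Y560.TF.Stm

set_option autoImplicit false
set_option linter.style.haveILetI false

/-!
# Project TF: from the abstract geometry to the structures (job TF-GEOB)
-/

namespace Pool.Agent.Y899.TF.GeoJob

open Set MeasureTheory
open Pool.Agent.H899R2.VP (St Adj PIso BF IsoOn idOn inv comp zipSet)
open Pool.Agent.H533R2.VO (RS lift put OS Ic RIso Dich VC BlkV S_FINAL)
open Pool.Agent.H566P (ar R2 v2 a0 a1 lt ac co mk S_ACC S_MSG)
open Pool.Agent.Y560.TG (acc msg lt_mk ac_mk co_mk R2_ext piso_iff riso_iff riso_isoOn meas_lt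
  meas_ac meas_co meas_into cont_into piso_lt piso_ac piso_co piso_eq ex lt_ex ac_ex co_ex_even
  co_ex_odd piso_ex orb orb_ex Nm Off Sm Thin Few bf_trans0 bf_symm0 iso_trans0 iso_symm0
  iso_refl0 S_EXT S_GL S_MAT S_BP mat pick Se)
open Pool.Agent.Y560.TF

theorem t_GEO (h1 : Ge.S_EQV) (h2 : Ge.S_M1) (h3 : Ge.S_CL) (h4 : Ge.S_TL) (h5 : Ge.S_LU)
    (h6 : Ge.S_BC) : S_GEO := by
  intro Γ _ g hg R hR
  obtain ⟨t, h⟩ := hR
  letI := h.po
  letI := h.ma
  haveI := h.tr'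
  obtain ⟨E1, E2, E3, E4, E5⟩ := h1 Γ (Pt R t)
  have hinv : ∀ n u v x z, ac R n x z → (x ∈ Ob R u v ↔ z ∈ Ob R u v) := by
    intro n u v x z hac
    have hz : t (g n) x = z := (h.act n x z).1 hac
    rw [Ob_iff hg h, Ob_iff hg h, ← hz]
    exact (E3 u v x (g n)).symm
  refine ⟨?_, ?_, hinv, ?_, ?_, ?_, ?_, ?_, ?_, ?_, ?_, ?_, ?_⟩
  · intro u v
    exact (Ob_iff hg h).2 (E1 u v)
  · intro u v x hx
    have hx' := (Ob_iff hg h).1 hx
    have key := E2 u v x hx'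
    ext z
    rw [Ob_iff hg h, Ob_iff hg h, key]
  · intro u v
    refine ⟨fun n x z hac => hinv n u v x z hac, ?_⟩
    intro a ha b hb hlab w hw
    have ha' := (Ob_iff hg h).1 ha
    have hb' := (Ob_iff hg h).1 hb
    have hw' : ¬ (w ∈ Ge.OB Γ (X := Pt R t) u v) := fun hc => hw ((Ob_iff hg h).2 hc)
    have hsl := (sl_iff hg h).1 (show sl R u a b from hlab)
    exact h2 Γ (Pt R t) u v a b w ha' hb' hsl hw'
  · intro y z x v hx hv w hw
    rw [Ob_iff hg h] at hx hv hw ⊢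
    exact h3 Γ (Pt R t) y z x v hx hv hw
  · intro y z x hx w hw
    rw [Ob_iff hg h] at hx hw ⊢
    exact h4 Γ (Pt R t) y z x hx hw
  · intro y z
    refine ⟨?_, ?_⟩
    · rw [Ob_iff hg h, orb_iff hg h]
      exact E4 y z
    · intro v hv
      obtain ⟨γ, rfl⟩ := (orb_iff hg h).1 hv
      ext w
      have key := E5 y γ
      rw [Ob_iff hg h]
      show _ ↔ orb R y w
      rw [orb_iff hg h]
      exact (Set.ext_iff.1 key w : _)
  · intro y x z n x' z' hx hz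
    have ex : t (g n) x = x' := (h.act n x x').1 hx
    have ez : t (g n) z = z' := (h.act n z z').1 hz
    rw [sl_iff hg h, sl_iff hg h, ← ex, ← ez]
    exact (Ge.SL_smul (Γ := Γ) (X := Pt R t) (γ := g n)).symm
  · intro u z x v v' hx hv hv' hs
    rw [Ob_iff hg h] at hx hv hv'
    rw [sl_iff hg h] at hs ⊢
    exact h5 Γ (Pt R t) u z x v v' hx hv hv' hs
  · intro y z u u' v hy hu hu' hs hv
    rw [Ob_iff hg h] at hy hu hu' hv
    rw [sl_iff hg h] at hs
    have key := h6 Γ (Pt R t) y z u u' v hy hu hu' hs hv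
    ext w
    rw [Ob_iff hg h, Ob_iff hg h, key]
  · intro x
    obtain ⟨n, hn⟩ := hg 1
    exact ⟨n, (h.act n x x).2 (by rw [hn]; exact h.one x)⟩
  · intro n x z hac
    obtain ⟨m, hm⟩ := hg (g n)⁻¹
    have hz : t (g n) x = z := (h.act n x z).1 hac
    refine ⟨m, (h.act m z x).2 ?_⟩
    rw [hm, ← hz, h.inv_t]
  · intro n x z z' hz hz'
    rw [← (h.act n x z).1 hz, ← (h.act n x z').1 hz']

theorem t_GDR (h1 : Ge.S_EQV) (hGD : Ge.S_GD) : S_GDR := by
  intro Γ _ g hg R R' u v u' v' x x' hR hR' hiso hgd hgd' hlab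
  obtain ⟨t, h⟩ := hR
  obtain ⟨t', h'⟩ := hR'
  letI := h.po
  letI := h.ma
  haveI := h.tr'
  letI := h'.po
  letI := h'.ma
  haveI := h'.tr'
  obtain ⟨E1, E2, E3, E4, E5⟩ := h1 Γ (Pt R t)
  obtain ⟨q, hq1, hq2, hq3, hq4, hq5⟩ := hiso
  classical
  have hex : ∀ a : ℕ, ∃ b : ℕ, a ∈ Ob R u v → (a, b) ∈ q := by
    intro a
    by_cases ha : a ∈ Ob R u v
    · obtain ⟨b, hb⟩ := hq4 a ha
      exact ⟨b, fun _ => hb⟩
    · exact ⟨0, fun hc => absurd hc ha⟩
  choose φ hφ using hex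
  have hφ' : ∀ a b : ℕ, (a, b) ∈ q → φ a = b := by
    intro a b hab
    have ha : a ∈ Ob R u v := (hq2 hab).1
    exact (piso_eq hq3 (hφ a ha) hab).1 rfl
  have hxq : (x, x') ∈ q := hq1 rfl
  have hx : x ∈ Ob R u v := hgd.1
  have hφx : φ x = x' := hφ' x x' hxq
  have key : ∀ z : Pt R t, z ∈ Ge.OB Γ (X := Pt R t) u v →
      Ge.LE Γ (X := Pt R t) (X' := Pt R' t') u z u' (φ z) := by
    refine hGD Γ (Pt R t) (Pt R' t') u v u' v' (fun a => φ a) ?_ ?_ ?_ ?_ x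
      ((Ob_iff hg h).1 hx) ?_ ?_ ?_
    · intro a ha
      have ha' := (Ob_iff hg h).2 ha
      exact (Ob_iff hg h').1 (hq2 (hφ a ha')).2
    · intro b hb
      have hb' := (Ob_iff hg h').2 hb
      obtain ⟨a, ha⟩ := hq5 b hb'
      exact ⟨a, (Ob_iff hg h).1 (hq2 ha).1, hφ' a b ha⟩
    · intro a ha b hb
      have ha' := (Ob_iff hg h).2 ha
      have hb' := (Ob_iff hg h).2 hb
      exact piso_le hq3 (hφ a ha') (hφ b hb')
    · intro γ a ha
      obtain ⟨n, rfl⟩ := hg γ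
      have ha' := (Ob_iff hg h).2 ha
      have hga : (g n) • a ∈ Ge.OB Γ (X := Pt R t) u v := (E3 u v a (g n)).2 ha
      have hga' := (Ob_iff hg h).2 hga
      have e1 : ac R n a (t (g n) a) := (h.act n a _).2 rfl
      have e2 := (piso_ac hq3 (hφ a ha') (hφ _ hga') (n := n)).1 e1
      exact ((h'.act n _ _).1 e2).symm
    · rcases hgd.2 with hd | hd
      · exact Or.inl ((Du_iff hg h).1 hd)
      · refine Or.inr fun z hz hc => ?_
        exact hd z ((Ob_iff hg h).2 hz) ((Du_iff hg h).2 hc)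
    · rcases hgd'.2 with hd | hd
      · left
        show Ge.DD Γ (X := Pt R' t') u' (φ x)
        rw [hφx]
        exact (Du_iff hg h').1 hd
      · refine Or.inr fun z hz hc => ?_
        exact hd z ((Ob_iff hg h').2 hz) ((Du_iff hg h').2 hc)
    · show Ge.LE Γ (X := Pt R t) (X' := Pt R' t') u x u' (φ x)
      rw [hφx]
      exact (LE_iff hg h h').1 hlab
  refine ⟨q, hq1, hq2, ?_, hq4, hq5⟩
  refine piso_ex.2 ⟨hq3, fun k w hw => ?_⟩
  have hw1 : w.1 ∈ Ob R u v := (hq2 hw).1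
  have hw2 : φ w.1 = w.2 := hφ' w.1 w.2 hw
  have := key w.1 ((Ob_iff hg h).1 hw1)
  have h2 := (LE_iff hg h h').2 this k
  rw [hw2] at h2
  exact h2

end Pool.Agent.Y899.TF.GeoJob
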