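import Pool.Agent.Y560.TF.GeS

set_option autoImplicit false
set_option linter.unusedSectionVars false

/-!
# Project TF: types of classes, the classes form a partition (job TF-TYP+EQV)
-/

namespace Pool.Agent.Y899.TF

open Pool.Agent.Y560.TF.Ge

section

variable {Γ X : Type} [Group Γ] [PartialOrder X] [MulAction Γ X] [Tr Γ X]

/-- moving `IN` along a common lower bound which is not below the orbit of `u` -/
theorem in_move {u s x t r : X} (hs : DD Γ u s) (h : IN Γ u s x) (h1 : r ≤ x) (h2 : r ≤ t)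
    (h3 : ¬ DD Γ u r) : IN Γ u s t := by
  obtain ⟨a, b, hab, ha, hb⟩ := h
  have hda : DD Γ u (a • s) := hs.smul a
  have hdb : DD Γ u (b • s) := hs.smul b
  have har : a • s ≤ r := by
    rcases cmp Γ ha h1 with h4 | h4
    · exact h4
    · exact absurd (hda.le h4) h3
  refine ⟨a, b, hab, har.trans h2, fun h5 => ?_⟩
  rcases cmp Γ h5 h2 with h4 | h4
  · exact hb (h4.trans h1)
  · exact h3 (hdb.le h4)

/-- elements below the orbit with the same label are comparable -/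
theorem sl_cmp {u p q : X} (h : SL Γ u p q) (hp : DD Γ u p) : p ≤ q ∨ q ≤ p := by
  obtain ⟨γ, hγ⟩ := hp
  exact cmp Γ hγ ((h.b γ).1 hγ)

/-- no separation at the base point -/
theorem not_in_self {y s : X} : ¬ IN Γ y s y := by
  rintro ⟨a, b, hab, ha, hb⟩
  apply hb
  have := (hab.b 1).1 (by rw [one_smul]; exact ha)
  rwa [one_smul] at this

theorem KR_symm {u v x r : X} {γ : Γ} (h1 : r ≤ γ • v) (h2 : r ≤ x) (h3 : ¬ DD Γ u r) :
    ∃ (δ : Γ) (r' : X), r' ≤ δ • x ∧ r' ≤ v ∧ ¬ DD Γ u r' :=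
  ⟨γ⁻¹, γ⁻¹ • r, sle.2 h2, by rw [sle_left, inv_inv]; exact h1, fun h => h3 (DD_smul.1 h)⟩

theorem KR_trans {u v x t r r' : X} {γ δ : Γ} (h1 : r ≤ γ • v) (h2 : r ≤ x) (h3 : ¬ DD Γ u r)
    (h1' : r' ≤ δ • x) (h2' : r' ≤ t) (h3' : ¬ DD Γ u r') :
    ∃ (ε : Γ) (r'' : X), r'' ≤ ε • v ∧ r'' ≤ t ∧ ¬ DD Γ u r'' := by
  have h4 : δ • r ≤ δ • x := sle.2 h2
  have h5 : δ • r ≤ (δ * γ) • v := by rw [mul_smul]; exact sle.2 h1
  rcases cmp Γ h4 h1' with h6 | h6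
  · exact ⟨δ * γ, δ • r, h5, h6.trans h2', fun h => h3 (DD_smul.1 h)⟩
  · exact ⟨δ * γ, r', h6.trans h5, h2', h3'⟩

end

theorem t_TYP (h : S_STAR) : S_TYP := by
  intro Γ X _ _ _ _ u v
  refine ⟨?_, ?_, ?_, ?_, ?_, ?_⟩
  · intro s hs hv
    ext t
    constructor
    · rintro (⟨γ, rfl⟩ | ⟨γ, r, h1, h2, h3⟩ | ⟨s', hs', hv', ht'⟩)
      · exact IN_smul.2 hv
      · exact in_move hs (IN_smul.2 hv : IN Γ u s (γ • v)) h1 h2 h3
      · exact (h Γ X u s s' v hs hs' hv hv' t).2 ht'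
    · intro ht
      exact Or.inr (Or.inr ⟨s, hs, hv, ht⟩)
  · intro hv hno
    ext t
    constructor
    · rintro (⟨γ, rfl⟩ | ⟨γ, r, h1, h2, h3⟩ | ⟨s', hs', hv', ht'⟩)
      · exact ⟨γ, rfl⟩
      · exact absurd ((hv.smul γ).le h1) h3
      · exact absurd ⟨s', hs', hv'⟩ hno
    · rintro ⟨γ, hγ⟩
      exact Or.inl ⟨γ, hγ⟩
  · intro hv hno
    ext t
    constructor
    · rintro (⟨γ, rfl⟩ | h1 | ⟨s', hs', hv', ht'⟩)
      · exact ⟨γ, γ • v, le_rfl, le_rfl, fun h => hv (DD_smul.1 h)⟩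
      · exact h1
      · exact absurd ⟨s', hs', hv'⟩ hno
    · intro ht
      exact Or.inr (Or.inl ht)
  · rintro s x hs ⟨a, b, hab, ha, hb⟩
    have hda : DD Γ u (a • s) := hs.smul a
    rcases sl_cmp hab hda with h1 | h1
    · have h2 : IN Γ u s (a • s) := ⟨a, b, hab, le_rfl, fun h3 => hb (h3.trans ha)⟩
      exact IN_smul.1 h2
    · exact absurd (h1.trans ha) hb
  · intro γ s x
    constructor
    · rintro ⟨a, b, hab, ha, hb⟩
      rw [← mul_smul, ← mul_smul] at hab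
      rw [← mul_smul] at ha hb
      exact ⟨_, _, hab, ha, hb⟩
    · rintro ⟨a, b, hab, ha, hb⟩
      refine ⟨a * γ⁻¹, b * γ⁻¹, ?_, ?_, ?_⟩
      · rw [← mul_smul, ← mul_smul, inv_mul_cancel_right, inv_mul_cancel_right]; exact hab
      · rw [← mul_smul, inv_mul_cancel_right]; exact ha
      · rw [← mul_smul, inv_mul_cancel_right]; exact hb
  · intro γ δ s hs hsl hne
    rcases sl_cmp hsl (hs.smul γ) with h1 | h1
    · have h2 : IN Γ u s (γ • s) := ⟨γ, δ, hsl, le_rfl, fun h3 => hne (le_antisymm h1 h3)⟩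
      exact IN_smul.1 h2
    · have h2 : IN Γ u s (δ • s) := ⟨δ, γ, hsl.symm, le_rfl, fun h3 => hne (le_antisymm h3 h1)⟩
      exact IN_smul.1 h2

theorem t_EQV (_h : S_STAR) (h' : S_TYP) : S_EQV := by
  intro Γ X _ _ _ _
  refine ⟨?_, ?_, ?_, ?_, ?_⟩
  · intro u v
    exact Or.inl ⟨1, one_smul _ _⟩
  · intro u v x hx
    by_cases hs : ∃ s, DD Γ u s ∧ IN Γ u s v
    · obtain ⟨s, hs, hv⟩ := hs
      have h1 := (h' Γ X u v).1 s hs hv
      have hx' : IN Γ u s x := by rw [h1] at hx; exact hx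
      rw [h1, (h' Γ X u x).1 s hs hx']
    · have hno : ¬ ∃ s, DD Γ u s ∧ IN Γ u s x := by
        rintro ⟨s, hs', hx'⟩
        apply hs
        rcases hx with ⟨γ, rfl⟩ | ⟨γ, r, h1, h2, h3⟩ | ⟨s', hs1, hv', _⟩
        · exact ⟨s, hs', IN_smul.1 hx'⟩
        · exact ⟨s, hs', IN_smul.1 (in_move hs' hx' h2 h1 h3)⟩
        · exact ⟨s', hs1, hv'⟩
      by_cases hv : DD Γ u v
      · rw [(h' Γ X u v).2.1 hv hs] at hx
        obtain ⟨γ, rfl⟩ := hx
        rw [(h' Γ X u v).2.1 hv hs, (h' Γ X u (γ • v)).2.1 (hv.smul γ) hno]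
        ext t
        constructor
        · rintro ⟨δ, rfl⟩
          exact ⟨δ * γ, mul_smul _ _ _⟩
        · rintro ⟨δ, rfl⟩
          exact ⟨δ * γ⁻¹, by rw [← mul_smul, inv_mul_cancel_right]⟩
      · rw [(h' Γ X u v).2.2.1 hv hs] at hx
        obtain ⟨γ, r, h1, h2, h3⟩ := hx
        have hx : ¬ DD Γ u x := fun h => h3 (h.le h2)
        rw [(h' Γ X u v).2.2.1 hv hs, (h' Γ X u x).2.2.1 hx hno]
        ext t
        constructor
        · rintro ⟨δ, r', h1', h2', h3'⟩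
          exact KR_trans h1 h2 h3 h1' h2' h3'
        · rintro ⟨δ, r', h1', h2', h3'⟩
          obtain ⟨ε, r'', g1, g2, g3⟩ := KR_symm h1 h2 h3
          exact KR_trans g1 g2 g3 h1' h2' h3'
  · have key : ∀ (u v x : X) (γ : Γ), x ∈ OB Γ u v → γ • x ∈ OB Γ u v := by
      rintro u v x γ (⟨δ, rfl⟩ | ⟨δ, r, h1, h2, h3⟩ | ⟨s', hs1, hv', hx'⟩)
      · exact Or.inl ⟨γ * δ, mul_smul _ _ _⟩
      · exact Or.inr (Or.inl ⟨γ * δ, γ • r, by rw [mul_smul]; exact sle.2 h1, sle.2 h2,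
          fun h => h3 (DD_smul.1 h)⟩)
      · exact Or.inr (Or.inr ⟨s', hs1, hv', IN_smul.2 hx'⟩)
    intro u v x γ
    refine ⟨fun h => ?_, key u v x γ⟩
    have := key u v _ γ⁻¹ h
    rwa [inv_smul_smul] at this
  · intro y z
    constructor
    · rintro (⟨γ, hγ⟩ | ⟨γ, r, h1, h2, h3⟩ | ⟨s', hs1, hv', hx'⟩)
      · exact ⟨γ⁻¹, by rw [← hγ, inv_smul_smul]⟩
      · exact absurd ⟨1, by rw [one_smul]; exact h2⟩ h3
      · exact absurd hx' not_in_self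
    · rintro ⟨γ, rfl⟩
      exact Or.inl ⟨γ⁻¹, inv_smul_smul _ _⟩
  · intro y γ
    ext w
    constructor
    · rintro (⟨δ, hδ⟩ | ⟨δ, r, h1, h2, h3⟩ | ⟨s', hs1, hv', hx'⟩)
      · exact ⟨δ * γ, by rw [mul_smul]; exact hδ⟩
      · exact absurd ⟨δ * γ, by rw [mul_smul]; exact h1⟩ h3
      · exact absurd (IN_smul.1 hv') not_in_self
    · rintro ⟨δ, rfl⟩
      exact Or.inl ⟨δ * γ⁻¹, by rw [← mul_smul, inv_mul_cancel_right]⟩

end Pool.Agent.Y899.TF
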